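import Pool.Agent.Helper16.NR.Stmts

/-! Module SQ: square roots modulo two numbers in a window. -/

set_option autoImplicit false

namespace Pool.Helper16.NR

/-- two roots with the same `gcd (b, y - v)` -/
theorem sq_two {b v y z : ℤ} (hb : b ≠ 0) (hv : IsCoprime v b)
    (hy : b ∣ y ^ 2 - v ^ 2) (hz : b ∣ z ^ 2 - v ^ 2)
    (hg : Int.gcd b (y - v) = Int.gcd b (z - v)) : b ∣ 2 * (y - z) := by
  set g : ℤ := (Int.gcd b (y - v) : ℤ) with hgd
  have hg0 : g ≠ 0 := by
    rw [hgd]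
    exact_mod_cast (Int.gcd_pos_of_ne_zero_left _ hb).ne'
  obtain ⟨b', hb'⟩ : g ∣ b := Int.gcd_dvd_left b (y - v)
  obtain ⟨y', hy'⟩ : g ∣ y - v := Int.gcd_dvd_right b (y - v)
  have hgz : g = (Int.gcd b (z - v) : ℤ) := by rw [hgd, hg]
  obtain ⟨z', hz'⟩ : g ∣ z - v := by rw [hgz]; exact Int.gcd_dvd_right b (z - v)
  have hcop : ∀ t t' : ℤ, g = (Int.gcd b t : ℤ) → t = g * t' → IsCoprime b' t' := by
    intro t t' h1 h2
    have h3 := Int.gcd_eq_gcd_ab b t
    rw [← h1] at h3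
    refine ⟨Int.gcdA b t, Int.gcdB b t, ?_⟩
    have h4 : g * (Int.gcdA b t * b' + Int.gcdB b t * t') = g * 1 := by
      calc g * (Int.gcdA b t * b' + Int.gcdB b t * t')
          = (g * b') * Int.gcdA b t + (g * t') * Int.gcdB b t := by ring
        _ = b * Int.gcdA b t + t * Int.gcdB b t := by rw [← hb', ← h2]
        _ = g * 1 := by rw [← h3, mul_one]
    exact mul_left_cancel₀ hg0 h4
  have hplus : ∀ x x' : ℤ, g = (Int.gcd b (x - v) : ℤ) → x - v = g * x' →
      b ∣ x ^ 2 - v ^ 2 → b' ∣ x + v := by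
    intro x x' h1 h2 h3
    have h4 : x ^ 2 - v ^ 2 = g * (x' * (x + v)) := by
      calc x ^ 2 - v ^ 2 = (x - v) * (x + v) := by ring
        _ = g * (x' * (x + v)) := by rw [h2]; ring
    rw [h4, hb'] at h3
    have h5 : b' ∣ x' * (x + v) := (mul_dvd_mul_iff_left hg0).1 h3
    exact (hcop _ _ h1 h2).dvd_of_dvd_mul_left h5
  have h1 := hplus y y' hgd hy' hy
  have h2 := hplus z z' hgz hz' hz
  have h3 : b' ∣ y - z := by
    have := dvd_sub h1 h2
    have h4 : y + v - (z + v) = y - z := by ring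
    rwa [h4] at this
  have h4 : g ∣ y - z := by
    have : y - z = g * (y' - z') := by rw [mul_sub, ← hy', ← hz']; ring
    rw [this]
    exact dvd_mul_right _ _
  -- the gcd of g and b' divides 2
  have h5 : ((Int.gcd g b' : ℕ) : ℤ) ∣ 2 := by
    set d : ℤ := ((Int.gcd g b' : ℕ) : ℤ) with hd
    have hd1 : d ∣ g := Int.gcd_dvd_left g b'
    have hd2 : d ∣ b' := Int.gcd_dvd_right g b'
    have hd3 : d ∣ 2 * v := by
      have h6 : d ∣ (y + v) - (y - v) := dvd_sub (hd2.trans h1) (hd1.trans ⟨y', hy'⟩)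
      have h7 : (y + v) - (y - v) = 2 * v := by ring
      rwa [h7] at h6
    have hd4 : IsCoprime d v := by
      have h8 : d ∣ b := hd1.trans ⟨b', hb'⟩
      exact (IsCoprime.of_isCoprime_of_dvd_right hv h8).symm
    exact hd4.dvd_of_dvd_mul_right hd3
  have h6 : g = (Int.gcd g b' : ℤ) * (g / (Int.gcd g b' : ℤ)) :=
    (Int.mul_ediv_cancel' (Int.gcd_dvd_left g b')).symm
  obtain ⟨r, hr⟩ := h5
  have h7 : b ∣ (Int.gcd g b' : ℤ) * (y - z) := by
    have h8 := Int.gcd_eq_gcd_ab g b'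
    obtain ⟨s1, hs1⟩ := h3
    obtain ⟨s2, hs2⟩ := h4
    refine ⟨s1 * Int.gcdA g b' + s2 * Int.gcdB g b', ?_⟩
    rw [h8, hb']
    calc (g * Int.gcdA g b' + b' * Int.gcdB g b') * (y - z)
        = g * Int.gcdA g b' * (y - z) + b' * Int.gcdB g b' * (y - z) := by ring
      _ = g * Int.gcdA g b' * (b' * s1) + b' * Int.gcdB g b' * (g * s2) := by
          rw [← hs1, ← hs2]
      _ = g * b' * (s1 * Int.gcdA g b' + s2 * Int.gcdB g b') := by ring
  rw [hr]
  calc b ∣ (Int.gcd g b' : ℤ) * (y - z) := h7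
    _ ∣ (Int.gcd g b' : ℤ) * r * (y - z) := ⟨r, by ring⟩

/-- integers in a window which are congruent modulo `m` after doubling -/
theorem sq_win (m : ℕ) (hm : 0 < m) (S : Finset ℤ)
    (h : ∀ y ∈ S, ∀ z ∈ S, (m : ℤ) ∣ 2 * (y - z)) (L : ℝ) (hL : 0 ≤ L)
    (hS : ∀ y ∈ S, ∀ z ∈ S, |(y : ℝ) - (z : ℝ)| ≤ L) : (S.card : ℝ) ≤ 2 * L / (m : ℝ) + 1 := by
  have hm' : (0 : ℝ) < m := by exact_mod_cast hm
  rcases S.eq_empty_or_nonempty with rfl | hne
  · simp only [Finset.card_empty, Nat.cast_zero]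
    positivity
  obtain ⟨y0, hy0, hmin⟩ := S.exists_min_image id hne
  simp only [id] at hmin
  have hcard : S.card ≤ (Finset.range (⌊2 * L / m⌋₊ + 1)).card := by
    refine Finset.card_le_card_of_injOn (fun y => (2 * (y - y0) / m).toNat) ?_ ?_
    · intro y hy
      simp only [Finset.coe_range, Set.mem_Iio]
      obtain ⟨k, hk⟩ := h y hy y0 hy0
      have hm1 : (m : ℤ) ≠ 0 := by exact_mod_cast hm.ne'
      rw [hk, Int.mul_ediv_cancel_left _ hm1]
      have hk0 : 0 ≤ k := by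
        have h1 : 0 ≤ (m : ℤ) * k := by rw [← hk]; have := hmin y hy; omega
        exact nonneg_of_mul_nonneg_right h1 (by exact_mod_cast hm)
      have h2 : ((k.toNat : ℕ) : ℝ) ≤ 2 * L / m := by
        rw [le_div_iff₀ hm']
        have h3 : ((k.toNat : ℕ) : ℝ) = (k : ℝ) := by
          exact_mod_cast congrArg (fun t : ℤ => (t : ℝ)) (Int.toNat_of_nonneg hk0)
        rw [h3]
        have h4 : (k : ℝ) * m = 2 * ((y : ℝ) - y0) := by
          have := congrArg (fun t : ℤ => (t : ℝ)) hk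
          push_cast at this
          linarith
        rw [h4]
        have := le_of_abs_le (hS y hy y0 hy0)
        linarith
      exact Nat.lt_succ_of_le (Nat.le_floor h2)
    · intro y hy z hz hyz
      simp only at hyz
      obtain ⟨k, hk⟩ := h y hy y0 hy0
      obtain ⟨k', hk'⟩ := h z hz y0 hy0
      have hm1 : (m : ℤ) ≠ 0 := by exact_mod_cast hm.ne'
      rw [hk, hk', Int.mul_ediv_cancel_left _ hm1, Int.mul_ediv_cancel_left _ hm1] at hyz
      have hm2 : (0 : ℤ) < m := by exact_mod_cast hm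
      have hk0 : 0 ≤ k := by
        have h1 : 0 ≤ (m : ℤ) * k := by rw [← hk]; have := hmin y hy; omega
        exact nonneg_of_mul_nonneg_right h1 hm2
      have hk0' : 0 ≤ k' := by
        have h1 : 0 ≤ (m : ℤ) * k' := by rw [← hk']; have := hmin z hz; omega
        exact nonneg_of_mul_nonneg_right h1 hm2
      have h2 : k = k' := by omega
      rw [h2] at hk
      omega
  rw [Finset.card_range] at hcard
  calc (S.card : ℝ) ≤ ((⌊2 * L / m⌋₊ + 1 : ℕ) : ℝ) := by exact_mod_cast hcard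
    _ = (⌊2 * L / m⌋₊ : ℝ) + 1 := by push_cast; ring
    _ ≤ 2 * L / m + 1 := by
        have : (⌊2 * L / m⌋₊ : ℝ) ≤ 2 * L / m := Nat.floor_le (by positivity)
        linarith

theorem st_SQ : ST_SQ := by
  intro b c hb hc v w hv hw S hS L hL hSL
  have hb0 : (b : ℤ) ≠ 0 := by exact_mod_cast hb.ne'
  have hc0 : (c : ℤ) ≠ 0 := by exact_mod_cast hc.ne'
  have hlcm : 0 < Nat.lcm b c := Nat.lcm_pos hb hc
  classical
  let φ : ℤ → ℕ × ℕ := fun y => (Int.gcd b (y - v), Int.gcd c (y - w))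
  have hφ : ∀ y ∈ S, φ y ∈ b.divisors ×ˢ c.divisors := by
    intro y _
    rw [Finset.mem_product]
    constructor
    · rw [Nat.mem_divisors]
      refine ⟨?_, hb.ne'⟩
      have := Int.gcd_dvd_left (b : ℤ) (y - v)
      exact_mod_cast this
    · rw [Nat.mem_divisors]
      refine ⟨?_, hc.ne'⟩
      have := Int.gcd_dvd_left (c : ℤ) (y - w)
      exact_mod_cast this
  have hcls : ∀ g ∈ b.divisors ×ˢ c.divisors,
      (((S.filter (fun y => φ y = g)).card : ℕ) : ℝ) ≤ 2 * L / (Nat.lcm b c : ℝ) + 1 := by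
    intro g _
    refine sq_win _ hlcm _ ?_ L hL ?_
    · intro y hy z hz
      rw [Finset.mem_filter] at hy hz
      have h1 : φ y = φ z := hy.2.trans hz.2.symm
      have h2 : Int.gcd (b : ℤ) (y - v) = Int.gcd (b : ℤ) (z - v) := congrArg Prod.fst h1
      have h3 : Int.gcd (c : ℤ) (y - w) = Int.gcd (c : ℤ) (z - w) := congrArg Prod.snd h1
      have h4 := sq_two hb0 hv (hS y hy.1).1 (hS z hz.1).1 h2
      have h5 := sq_two hc0 hw (hS y hy.1).2 (hS z hz.1).2 h3
      have h6 : ((Int.lcm (b : ℤ) (c : ℤ) : ℕ) : ℤ) ∣ 2 * (y - z) := Int.coe_lcm_dvd h4 h5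
      exact h6
    · intro y hy z hz
      exact hSL y (Finset.mem_filter.1 hy).1 z (Finset.mem_filter.1 hz).1
  have hsum : S.card = ∑ g ∈ b.divisors ×ˢ c.divisors, (S.filter (fun y => φ y = g)).card :=
    Finset.card_eq_sum_card_fiberwise hφ
  rw [hsum]
  push_cast
  calc ∑ g ∈ b.divisors ×ˢ c.divisors, (((S.filter (fun y => φ y = g)).card : ℕ) : ℝ)
      ≤ ∑ _g ∈ b.divisors ×ˢ c.divisors, (2 * L / (Nat.lcm b c : ℝ) + 1) :=
        Finset.sum_le_sum hcls
    _ = (b.divisors.card : ℝ) * (c.divisors.card : ℝ) * (2 * L / (Nat.lcm b c : ℝ) + 1) := by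
        rw [Finset.sum_const, Finset.card_product, nsmul_eq_mul]
        push_cast
        ring

end Pool.Helper16.NR
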